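import Pool.Agent.N594.KR.Main

/-!
# Space/time tradeoff for bounded-length reachability oracles: the conjectured bound fails

`k`-reachability on sparse directed graphs: preprocess a directed graph with `n` vertices and at
most `C * n` edges; answer the queries: is there a path from `u` to `v` with at most `k` edges?

The definitions are in `Pool/Agent/N594/KR/Defs.lean` (`ReachWithin`, `IsOracle`, `gam`) and
`Pool/Agent/H588R2/Model.lean` (the word RAM with words of `w` bits, `HaltsWithin`).

`IsOracle k C b P S T`: the fixed RAM program `P`, which never writes to memory, answers all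
queries correctly within `T n` steps from a memory image occupying `S n` words, for every graph
with `n` vertices and at most `C * n` edges and every word length `w ≥ b * log₂ (n + 1)`.

Result: for every `k ≥ 3`, every `C` and every `δ > 0` there is an oracle with `T(n) ≤ n ^ δ`,
`S(n) T(n) ^ γ ≤ n ^ 2 (log n) ^ 5` for `γ = gam k = 1 / ⌊k / 2⌋ + 1 / ⌈k / 2⌉ > 2 / (k - 1)`, and
`S(n) T(n) ^ (2 / (k - 1)) < n ^ 2 / (log n) ^ c` for every constant `c` and all large `n`.
This is the negated form of Q1, for every `k ≥ 3`. The full tradeoff (space `K n ^ 2 / τ ^ γ` and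
query time `K τ (log (n + 2)) ^ 2` for any `1 ≤ τ ≤ n ^ (1 / (2 k + 2))`) is the theorem
`Pool.Agent.N594.KR.tradeoff`.
-/

namespace Pool.Agent.Results.MP_a349b4_lc.ReachabilityTradeoff

open Pool.Agent.H588R2 Pool.Agent.N594.KR Filter

theorem result : ∃ P : List Instr, ∀ k C : ℕ, 3 ≤ k → ∀ δ : ℝ, 0 < δ →
    ∃ (b : ℕ) (S T : ℕ → ℝ), IsOracle k C b P S T ∧
      (∀ᶠ n : ℕ in atTop, T n ≤ (n : ℝ) ^ δ) ∧
      (∀ᶠ n : ℕ in atTop, S n * T n ^ gam k ≤ (n : ℝ) ^ 2 * Real.log n ^ 5) ∧
      ∀ c : ℝ, ∀ᶠ n : ℕ in atTop,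
        S n * T n ^ (2 / ((k : ℝ) - 1)) < (n : ℝ) ^ 2 / Real.log n ^ c :=
  ⟨prog, fun k C hk δ hδ => refutation k C hk δ hδ⟩

end Pool.Agent.Results.MP_a349b4_lc.ReachabilityTradeoff
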